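import Pool.Agent.TH467.OC.Core

set_option autoImplicit false
set_option linter.unusedSectionVars false

/-! # Three perfect matchings of a bridgeless cubic graph (Kaiser, Kral, Norine) -/

namespace Pool.Agent.N470.FZ

open Finset Pool.Agent.H249R2.PM Pool.Agent.TH467.OC

variable {V E : Type} [Fintype V] [DecidableEq V] [Fintype E] [DecidableEq E]

/-- rounding which is tight at prescribed tight odd cuts -/
theorem tight_round {a b : E → V} (hl : ∀ e, a e ≠ b e) (hV : Even (Fintype.card V))
    (x c : E → ℝ) (hx : Fr a b x) (S : Finset (Finset V))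
    (hS : ∀ X ∈ S, Odd X.card ∧ cut a b x X = 1) :
    ∃ M, IsPM a b M ∧ (∀ X ∈ S, (M.filter (Cr a b X)).card = 1) ∧
      ∑ e ∈ M, c e ≤ ∑ e, c e * x e := by
  classical
  set B : ℝ := ∑ e, |c e| * (x e + 1) with hB
  have hBnn : 0 ≤ B := sum_nonneg fun e _ => mul_nonneg (abs_nonneg _) (by linarith [hx.nonneg e])
  obtain ⟨M, hM, -, hle⟩ := round (E := E) (Fintype.card V) V rfl hV a b x
    (fun e => c e + (B + 1) * ∑ X ∈ S, (if Cr a b X e then (1 : ℝ) else 0)) hx
  have hall : univ.filter (fun e => a e ≠ b e) = univ := filter_true_of_mem fun e _ => hl e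
  rw [hall] at hle
  have h1 : ∑ e ∈ M, (c e + (B + 1) * ∑ X ∈ S, (if Cr a b X e then (1 : ℝ) else 0))
      = ∑ e ∈ M, c e + (B + 1) * ∑ X ∈ S, ((M.filter (Cr a b X)).card : ℝ) := by
    rw [sum_add_distrib, ← mul_sum, sum_comm]
    congr 2
    refine sum_congr rfl fun X _ => ?_
    rw [sum_boole]
  have h2 : ∑ e, (c e + (B + 1) * ∑ X ∈ S, (if Cr a b X e then (1 : ℝ) else 0)) * x e
      = ∑ e, c e * x e + (B + 1) * S.card := by
    have : ∀ e, (c e + (B + 1) * ∑ X ∈ S, (if Cr a b X e then (1 : ℝ) else 0)) * x e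
        = c e * x e + (B + 1) * ∑ X ∈ S, (if Cr a b X e then x e else 0) := by
      intro e
      rw [add_mul, mul_assoc, sum_mul]
      congr 2
      refine sum_congr rfl fun X _ => ?_
      split_ifs <;> simp
    rw [sum_congr rfl fun e _ => this e, sum_add_distrib, ← mul_sum, sum_comm]
    congr 2
    rw [← nsmul_one, ← sum_const]
    refine sum_congr rfl fun X hX => ?_
    rw [← cut_eq_ite]
    exact (hS X hX).2
  rw [h1, h2] at hle
  have hge : ∀ X ∈ S, 1 ≤ (M.filter (Cr a b X)).card := fun X hX =>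
    ((parity hM X).1 (hS X hX).1).pos
  have hcM : -B ≤ ∑ e ∈ M, c e - ∑ e, c e * x e := by
    have h3 : -∑ e ∈ M, |c e| ≤ ∑ e ∈ M, c e := by
      rw [← sum_neg_distrib]
      exact sum_le_sum fun e _ => neg_abs_le _
    have h4 : ∑ e ∈ M, |c e| ≤ ∑ e, |c e| :=
      sum_le_sum_of_subset_of_nonneg (subset_univ _) fun e _ _ => abs_nonneg _
    have h5 : ∑ e, c e * x e ≤ ∑ e, |c e| * x e :=
      sum_le_sum fun e _ => mul_le_mul_of_nonneg_right (le_abs_self _) (hx.nonneg e)
    have h6 : B = ∑ e, |c e| * x e + ∑ e, |c e| := by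
      rw [hB, ← sum_add_distrib]
      exact sum_congr rfl fun e _ => by ring
    linarith
  have hsum : (S.card : ℝ) ≤ ∑ X ∈ S, ((M.filter (Cr a b X)).card : ℝ) := by
    rw [← nsmul_one, ← sum_const]
    exact sum_le_sum fun X hX => by exact_mod_cast hge X hX
  have htight : ∀ X ∈ S, (M.filter (Cr a b X)).card = 1 := by
    intro X hX
    by_contra hne
    have h7 : 2 ≤ (M.filter (Cr a b X)).card := by
      have := hge X hX
      omega
    have h8 : (S.card : ℝ) + 1 ≤ ∑ X ∈ S, ((M.filter (Cr a b X)).card : ℝ) := by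
      rw [← add_sum_erase S _ hX]
      have h9 : ((S.erase X).card : ℝ) ≤ ∑ X ∈ S.erase X, ((M.filter (Cr a b X)).card : ℝ) := by
        rw [← nsmul_one, ← sum_const]
        exact sum_le_sum fun X hX => by exact_mod_cast hge X (mem_erase.1 hX).2
      have h10 : ((S.erase X).card : ℝ) + 1 = S.card := by
        exact_mod_cast card_erase_add_one hX
      have h11 : (2 : ℝ) ≤ ((M.filter (Cr a b X)).card : ℝ) := by exact_mod_cast h7
      linarith
    have h12 : (B + 1) * (S.card + 1) ≤ (B + 1) * ∑ X ∈ S, ((M.filter (Cr a b X)).card : ℝ) :=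
      mul_le_mul_of_nonneg_left h8 (by linarith)
    nlinarith
  refine ⟨M, hM, htight, ?_⟩
  have h13 : ∑ X ∈ S, ((M.filter (Cr a b X)).card : ℝ) = S.card := by
    rw [sum_congr rfl fun X hX => by rw [htight X hX, Nat.cast_one], sum_const, nsmul_one]
  rw [h13] at hle
  linarith

/-- the cut of a function given by indicator functions -/
theorem cut_lin (a b : E → V) (M N : Finset E) (t s r : ℝ) (X : Finset V) :
    cut a b (fun e => t - s * (if e ∈ M then 1 else 0) - r * (if e ∈ N then 1 else 0)) X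
      = t * (univ.filter (Cr a b X)).card - s * (M.filter (Cr a b X)).card
        - r * (N.filter (Cr a b X)).card := by
  unfold cut
  rw [sum_sub_distrib, sum_sub_distrib, sum_const, nsmul_eq_mul, ← mul_sum, ← mul_sum]
  have h : ∀ K : Finset E, ∑ e ∈ univ.filter (Cr a b X), (if e ∈ K then (1 : ℝ) else 0)
      = (K.filter (Cr a b X)).card := by
    intro K
    rw [sum_boole]
    congr 2
    ext e
    simp [and_comm]
  rw [h, h]
  ring

/-- **Three perfect matchings** (Kaiser, Kral and Norine). -/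
theorem three_pm {a b : E → V} (hG : RG 3 a b) (w : E → ℝ) :
    ∃ M1 M2 M3 : Finset E, IsPM a b M1 ∧ IsPM a b M2 ∧ IsPM a b M3 ∧
      15 * ∑ e ∈ M1 ∩ M2, w e ≤ ∑ e, w e ∧
      7 * ∑ e ∈ (M1 ∩ M2) ∩ M3, w e ≤ ∑ e ∈ M1 ∩ M2, w e := by
  classical
  have hl := hG.noloop
  have hV := even_card (by norm_num) hG
  have hdel : ∀ X : Finset V, Odd X.card → Odd (univ.filter (Cr a b X)).card ∧
      3 ≤ (univ.filter (Cr a b X)).card := by
    intro X hX
    have h1 := handshake hl hG.reg X
    have h2 := hG.odd X hX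
    rw [delta_eq] at h1 h2
    refine ⟨?_, h2⟩
    obtain ⟨k, hk⟩ := hX
    rw [Nat.odd_iff]
    omega
  have hsub : ∀ (M : Finset E) (X : Finset V), (M.filter (Cr a b X)).card
      ≤ (univ.filter (Cr a b X)).card := fun M X =>
    card_le_card (filter_subset_filter _ (subset_univ _))
  have hdeg : ∀ v, (univ.filter (Cr a b {v})).card = 3 := by
    intro v
    rw [← filter_end hl]
    exact hG.reg v
  -- first matching
  have hlin0 : ∀ X : Finset V, cut a b (fun _ : E => (1 : ℝ) / 3) X
      = (univ.filter (Cr a b X)).card / 3 := by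
    intro X
    unfold cut
    rw [sum_const, nsmul_eq_mul]
    ring
  have hx1 : Fr a b (fun _ : E => (1 : ℝ) / 3) := by
    refine ⟨fun _ => by norm_num, fun v => ?_, fun X hX => ?_⟩
    · rw [hlin0, hdeg]; norm_num
    · rw [hlin0, le_div_iff₀ (by norm_num)]
      have := (hdel X hX).2
      have : (3 : ℝ) ≤ ((univ.filter (Cr a b X)).card : ℝ) := by exact_mod_cast this
      linarith
  obtain ⟨M1, hM1, ht1, hc1⟩ := tight_round hl hV _ w hx1
    (univ.filter fun X => Odd X.card ∧ (univ.filter (Cr a b X)).card = 3) (by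
      intro X hX
      rw [mem_filter] at hX
      refine ⟨hX.2.1, ?_⟩
      rw [hlin0, hX.2.2]
      norm_num)
  have hm1 : ∀ X : Finset V, Odd X.card → Odd (M1.filter (Cr a b X)).card :=
    fun X hX => (parity hM1 X).1 hX
  have ht1' : ∀ X : Finset V, Odd X.card → (univ.filter (Cr a b X)).card = 3 →
      (M1.filter (Cr a b X)).card = 1 := fun X hX h => ht1 X (by simp [hX, h])
  -- second matching
  set x2 : E → ℝ := fun e => 2 / 5 - 1 / 5 * (if e ∈ M1 then 1 else 0) - 0 * (if e ∈ M1 then 1 else 0)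
    with hx2
  have hx2Fr : Fr a b x2 := by
    refine ⟨fun e => ?_, fun v => ?_, fun X hX => ?_⟩
    · rw [hx2]
      by_cases h : e ∈ M1 <;> simp [h] <;> norm_num
    · rw [hx2, cut_lin, hdeg, hM1.deg]
      norm_num
    · rw [hx2, cut_lin]
      obtain ⟨h1, h2⟩ := hdel X hX
      have h3 := hm1 X hX
      have h4 := hsub M1 X
      have h5 : 5 + (M1.filter (Cr a b X)).card ≤ 2 * (univ.filter (Cr a b X)).card := by
        by_cases h6 : (univ.filter (Cr a b X)).card = 3
        · rw [ht1' X hX h6, h6]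
        · obtain ⟨k, hk⟩ := h1
          omega
      have h7 : (5 : ℝ) + (M1.filter (Cr a b X)).card ≤ 2 * (univ.filter (Cr a b X)).card := by
        exact_mod_cast h5
      linarith
  obtain ⟨M2, hM2, ht2, hc2⟩ := tight_round hl hV x2
    (fun e => if e ∈ M1 then w e else 0) hx2Fr
    (univ.filter fun X => Odd X.card ∧ cut a b x2 X = 1) (by
      intro X hX
      rw [mem_filter] at hX
      exact hX.2)
  have hm2 : ∀ X : Finset V, Odd X.card → Odd (M2.filter (Cr a b X)).card :=
    fun X hX => (parity hM2 X).1 hX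
  have ht2' : ∀ X : Finset V, Odd X.card →
      5 + (M1.filter (Cr a b X)).card = 2 * (univ.filter (Cr a b X)).card →
      (M2.filter (Cr a b X)).card = 1 := by
    intro X hX h
    refine ht2 X ?_
    rw [mem_filter]
    refine ⟨mem_univ _, hX, ?_⟩
    rw [hx2, cut_lin]
    have h7 : (5 : ℝ) + (M1.filter (Cr a b X)).card = 2 * (univ.filter (Cr a b X)).card := by
      exact_mod_cast h
    linarith
  -- third matching
  set x3 : E → ℝ := fun e => 3 / 7 - 1 / 7 * (if e ∈ M1 then 1 else 0) - 1 / 7 * (if e ∈ M2 then 1 else 0)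
    with hx3
  have hx3Fr : Fr a b x3 := by
    refine ⟨fun e => ?_, fun v => ?_, fun X hX => ?_⟩
    · rw [hx3]
      by_cases h : e ∈ M1 <;> by_cases h' : e ∈ M2 <;> simp [h, h'] <;> norm_num
    · rw [hx3, cut_lin, hdeg, hM1.deg, hM2.deg]
      norm_num
    · rw [hx3, cut_lin]
      obtain ⟨h1, h2⟩ := hdel X hX
      have h3 := hm1 X hX
      have h3' := hm2 X hX
      have h4 := hsub M1 X
      have h4' := hsub M2 X
      have h5 : 7 + (M1.filter (Cr a b X)).card + (M2.filter (Cr a b X)).card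
          ≤ 3 * (univ.filter (Cr a b X)).card := by
        by_cases h6 : (univ.filter (Cr a b X)).card = 3
        · have h8 := ht1' X hX h6
          have h9 := ht2' X hX (by rw [h8, h6])
          rw [h8, h9, h6]
        · by_cases h8 : (univ.filter (Cr a b X)).card = 5
          · by_cases h9 : (M1.filter (Cr a b X)).card = 5
            · have h10 := ht2' X hX (by rw [h8, h9])
              omega
            · obtain ⟨k, hk⟩ := h3
              omega
          · obtain ⟨k, hk⟩ := h1
            omega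
      have h7 : (7 : ℝ) + (M1.filter (Cr a b X)).card + (M2.filter (Cr a b X)).card
          ≤ 3 * (univ.filter (Cr a b X)).card := by
        exact_mod_cast h5
      linarith
  obtain ⟨M3, hM3, -, hc3⟩ := tight_round hl hV x3
    (fun e => if e ∈ M1 ∩ M2 then w e else 0) hx3Fr ∅ (by simp)
  refine ⟨M1, M2, M3, hM1, hM2, hM3, ?_, ?_⟩
  · have h1 : ∑ e ∈ M2, (if e ∈ M1 then w e else 0) = ∑ e ∈ M1 ∩ M2, w e := by
      rw [← sum_filter]
      congr 1
      ext e
      simp [and_comm]
    have h2 : ∑ e, (if e ∈ M1 then w e else 0) * x2 e = (1 / 5) * ∑ e ∈ M1, w e := by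
      have h3 : ∀ e, (if e ∈ M1 then w e else 0) * x2 e = if e ∈ M1 then (1 / 5) * w e else 0 := by
        intro e
        rw [hx2]
        by_cases h : e ∈ M1
        · simp only [h, if_true]; ring
        · simp [h]
      rw [sum_congr rfl fun e _ => h3 e, sum_ite_mem, univ_inter, mul_sum]
    rw [h1, h2] at hc2
    have h4 : ∑ e, w e * ((1 : ℝ) / 3) = (1 / 3) * ∑ e, w e := by
      rw [← sum_mul]; ring
    rw [h4] at hc1
    linarith
  · have h1 : ∑ e ∈ M3, (if e ∈ M1 ∩ M2 then w e else 0) = ∑ e ∈ (M1 ∩ M2) ∩ M3, w e := by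
      rw [← sum_filter]
      congr 1
      ext e
      simp only [mem_filter, mem_inter]
      tauto
    have h2 : ∑ e, (if e ∈ M1 ∩ M2 then w e else 0) * x3 e = (1 / 7) * ∑ e ∈ M1 ∩ M2, w e := by
      have h3 : ∀ e, (if e ∈ M1 ∩ M2 then w e else 0) * x3 e
          = if e ∈ M1 ∩ M2 then (1 / 7) * w e else 0 := by
        intro e
        rw [hx3]
        by_cases h : e ∈ M1 ∩ M2
        · have ha := (mem_inter.1 h).1
          have hb := (mem_inter.1 h).2
          simp only [h, ha, hb, if_true]; ring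
        · simp [h]
      rw [sum_congr rfl fun e _ => h3 e, sum_ite_mem, univ_inter, mul_sum]
    rw [h1, h2] at hc3
    linarith

end Pool.Agent.N470.FZ
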