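import Pool.Agent.N470.FZ.Flow
import Pool.Agent.N470.FZ.PM

set_option autoImplicit false
set_option linter.unusedSectionVars false

/-! # Flows with few zeros in cubic graphs -/

namespace Pool.Agent.N470.FZ

open Finset Pool.Agent.H249R2.PM Pool.Agent.TH467.OC

variable {V E : Type} [Fintype V] [DecidableEq V] [Fintype E] [DecidableEq E]

theorem sum_ne' {a b : E → V} (hl : ∀ e, a e ≠ b e) (K : Finset E) (v : V) :
    ∑ e ∈ K, ne' a b e v = (K.filter (Cr a b {v})).card := by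
  rw [card_filter]
  refine sum_congr rfl fun e _ => ?_
  unfold ne'
  have h := hl e
  by_cases h1 : a e = v
  · by_cases h2 : b e = v
    · exact absurd (h1.trans h2.symm) h
    · have : Cr a b {v} e := by rw [Cr_singleton]; tauto
      simp [h1, h2, this]
  · by_cases h2 : b e = v
    · have : Cr a b {v} e := by rw [Cr_singleton]; tauto
      simp [h1, h2, this]
    · have : ¬ Cr a b {v} e := by rw [Cr_singleton]; tauto
      simp [h1, h2, this]

theorem evn_compl {a b : E → V} (hG : RG 3 a b) {M : Finset E} (hM : IsPM a b M) :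
    Evn a b (univ \ M) := by
  intro v
  have h1 : ∑ e ∈ univ \ M, ne' a b e v + ∑ e ∈ M, ne' a b e v = ∑ e, ne' a b e v :=
    sum_sdiff (subset_univ M)
  rw [sum_ne' hG.noloop M, hM.deg, sum_ne' hG.noloop univ] at h1
  have h2 : (univ.filter (Cr a b {v})).card = 3 := by
    rw [← filter_end hG.noloop]
    exact hG.reg v
  rw [h2] at h1
  exact ⟨1, by omega⟩

theorem pm_flow {a b : E → V} (hG : RG 3 a b) {M : Finset E} (hM : IsPM a b M) :
    ∃ φ : E → ℤ, Bal a b φ ∧ ∀ e, (e ∈ M ∧ φ e = 0) ∨ (e ∉ M ∧ (φ e = 1 ∨ φ e = -1)) := by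
  obtain ⟨φ, h1, h2, h3⟩ := orient _ a b (univ \ M) rfl (evn_compl hG hM)
  refine ⟨φ, h1, fun e => ?_⟩
  by_cases he : e ∈ M
  · exact Or.inl ⟨he, h3 e (by simp [he])⟩
  · exact Or.inr ⟨he, h2 e (by simp [he])⟩

/-- **Cubic graphs.** -/
theorem cubic {a b : E → V} (hG : RG 3 a b) (w : E → ℝ) (hw : ∀ e, 0 ≤ w e) :
    ∃ g : E → ℤ, Bal a b g ∧ (∀ e, |g e| ≤ 4) ∧
      210 * ∑ e ∈ univ.filter (fun e => g e = 0), w e ≤ 11 * ∑ e, w e := by
  classical
  obtain ⟨M1, M2, M3, hM1, hM2, hM3, hw1, hw2⟩ := three_pm hG w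
  obtain ⟨p, hp, hp'⟩ := pm_flow hG hM1
  obtain ⟨q, hq, hq'⟩ := pm_flow hG hM2
  obtain ⟨r, hr, hr'⟩ := pm_flow hG hM3
  have hH : Bal a b (fun e => (10 * p e + 5 * q e) + r e) := ((hp.smul 10).add (hq.smul 5)).add hr
  obtain ⟨g, hg1, hg2, hg3⟩ := quarter a b _ hH
  have hle4 : ∀ i e, |g i e| ≤ 4 := by
    intro i e
    have h1 := abs_le.1 (hg2 i e)
    rw [abs_le]
    rcases hp' e with ⟨-, h2⟩ | ⟨-, h2 | h2⟩ <;> rcases hq' e with ⟨-, h3⟩ | ⟨-, h3 | h3⟩ <;>
      rcases hr' e with ⟨-, h4⟩ | ⟨-, h4 | h4⟩ <;> rw [h2, h3, h4] at h1 <;> constructor <;> omega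
  -- the number of the zeros
  have hz : ∀ e, ((univ.filter fun i : Fin 4 => g i e = 0).card : ℝ)
      ≤ (if e ∈ M1 ∩ M2 then 3 else 0) + (if e ∈ (M1 ∩ M2) ∩ M3 then 1 else 0) := by
    intro e
    have hcard : (univ.filter fun i : Fin 4 => g i e = 0).card
        = (if g 0 e = 0 then 1 else 0) + (if g 1 e = 0 then 1 else 0) +
          (if g 2 e = 0 then 1 else 0) + (if g 3 e = 0 then 1 else 0) := by
      rw [card_filter, Fin.sum_univ_four]
    have hs := hg3 e
    rw [Fin.sum_univ_four] at hs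
    have a0 := abs_le.1 (hg2 0 e)
    have a1 := abs_le.1 (hg2 1 e)
    have a2 := abs_le.1 (hg2 2 e)
    have a3 := abs_le.1 (hg2 3 e)
    have hN : (univ.filter fun i : Fin 4 => g i e = 0).card
      ≤ (if e ∈ M1 ∩ M2 then 3 else 0) + (if e ∈ (M1 ∩ M2) ∩ M3 then 1 else 0) := by
      rw [hcard]
      by_cases h1 : e ∈ M1
      · by_cases h2 : e ∈ M2
        · by_cases h3 : e ∈ M3
          · have : e ∈ M1 ∩ M2 := mem_inter.2 ⟨h1, h2⟩
            have h' : e ∈ (M1 ∩ M2) ∩ M3 := mem_inter.2 ⟨this, h3⟩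
            rw [if_pos this, if_pos h']
            split_ifs <;> omega
          · have : e ∈ M1 ∩ M2 := mem_inter.2 ⟨h1, h2⟩
            have h' : e ∉ (M1 ∩ M2) ∩ M3 := fun h => h3 (mem_inter.1 h).2
            rw [if_pos this, if_neg h']
            rcases hp' e with ⟨-, b1⟩ | ⟨b1, -⟩
            swap
            · exact absurd h1 b1
            rcases hq' e with ⟨-, b2⟩ | ⟨b2, -⟩
            swap
            · exact absurd h2 b2
            rcases hr' e with ⟨b3, -⟩ | ⟨-, b3⟩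
            · exact absurd b3 h3
            rw [b1, b2] at hs
            split_ifs with c0 c1 c2 c3 <;> omega
        · have : e ∉ M1 ∩ M2 := fun h => h2 (mem_inter.1 h).2
          have h' : e ∉ (M1 ∩ M2) ∩ M3 := fun h => this (mem_inter.1 h).1
          rw [if_neg this, if_neg h']
          rcases hp' e with ⟨-, b1⟩ | ⟨b1, -⟩
          swap
          · exact absurd h1 b1
          rcases hq' e with ⟨b2, -⟩ | ⟨-, b2⟩
          · exact absurd b2 h2
          have b3 : r e = 0 ∨ r e = 1 ∨ r e = -1 := by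
            rcases hr' e with ⟨-, h⟩ | ⟨-, h | h⟩ <;> simp [h]
          rw [b1] at a0 a1 a2 a3
          rw [if_neg, if_neg, if_neg, if_neg] <;> intro h0 <;> rcases b2 with b2 | b2 <;>
            rcases b3 with b3 | b3 | b3 <;> rw [b2, b3] at a0 a1 a2 a3 <;> omega
      · have : e ∉ M1 ∩ M2 := fun h => h1 (mem_inter.1 h).1
        have h' : e ∉ (M1 ∩ M2) ∩ M3 := fun h => this (mem_inter.1 h).1
        rw [if_neg this, if_neg h']
        rcases hp' e with ⟨b1, -⟩ | ⟨-, b1⟩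
        · exact absurd b1 h1
        have b2 : q e = 0 ∨ q e = 1 ∨ q e = -1 := by
          rcases hq' e with ⟨-, h⟩ | ⟨-, h | h⟩ <;> simp [h]
        have b3 : r e = 0 ∨ r e = 1 ∨ r e = -1 := by
          rcases hr' e with ⟨-, h⟩ | ⟨-, h | h⟩ <;> simp [h]
        rw [if_neg, if_neg, if_neg, if_neg] <;> intro h0 <;> rcases b1 with b1 | b1 <;>
          rcases b2 with b2 | b2 | b2 <;> rcases b3 with b3 | b3 | b3 <;>
          rw [b1, b2, b3] at a0 a1 a2 a3 <;> omega
    exact_mod_cast hN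
  have hsum : ∑ i : Fin 4, ∑ e ∈ univ.filter (fun e => g i e = 0), w e
      ≤ 3 * ∑ e ∈ M1 ∩ M2, w e + ∑ e ∈ (M1 ∩ M2) ∩ M3, w e := by
    have h1 : ∑ i : Fin 4, ∑ e ∈ univ.filter (fun e => g i e = 0), w e
        = ∑ e, ((univ.filter fun i : Fin 4 => g i e = 0).card : ℝ) * w e := by
      simp only [sum_filter]
      rw [sum_comm]
      refine sum_congr rfl fun e _ => ?_
      rw [← sum_filter, sum_const, nsmul_eq_mul]
    have h2 : ∑ e ∈ M1 ∩ M2, w e = ∑ e, (if e ∈ M1 ∩ M2 then w e else 0) := by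
      rw [sum_ite_mem, univ_inter]
    have h3 : ∑ e ∈ (M1 ∩ M2) ∩ M3, w e = ∑ e, (if e ∈ (M1 ∩ M2) ∩ M3 then w e else 0) := by
      rw [sum_ite_mem, univ_inter]
    rw [h1, h2, h3, mul_sum, ← sum_add_distrib]
    refine sum_le_sum fun e _ => ?_
    have h4 := mul_le_mul_of_nonneg_right (hz e) (hw e)
    refine h4.trans (le_of_eq ?_)
    split_ifs <;> ring
  obtain ⟨i, hi⟩ : ∃ i : Fin 4, 4 * ∑ e ∈ univ.filter (fun e => g i e = 0), w e
      ≤ ∑ i : Fin 4, ∑ e ∈ univ.filter (fun e => g i e = 0), w e := by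
    by_contra hcon
    push Not at hcon
    have h0 := hcon 0
    have h1 := hcon 1
    have h2 := hcon 2
    have h3 := hcon 3
    rw [Fin.sum_univ_four] at h0 h1 h2 h3
    linarith
  refine ⟨g i, hg1 i, hle4 i, ?_⟩
  linarith

end Pool.Agent.N470.FZ
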