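import Pool.Agent.N470.FZ.Gen
import Pool.Agent.TH497.PW.IntFlow
import Pool.Agent.Y335.FL.Main
import Pool.Agent.Y335.FL.Local11

set_option autoImplicit false
set_option linter.unusedSectionVars false

/-! # Flows with few zeros and chains of short cycles -/

namespace Pool.Agent.N470.FZ

open Finset Pool.Agent.TH676.Z

variable {V E : Type} [Fintype V] [DecidableEq V] [Fintype E] [DecidableEq E]

/-- the edges of `Z` are free -/
theorem liftZ (src dst : E → V) (m : ℕ) (C : Fin m → Finset E) (Z : Finset E)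
    (hC : ∀ i, ∃ z : E → ZMod 5, (∀ v, bd src dst z v = 0) ∧
      (∀ e, z e = 0 ∨ z e = 1 ∨ z e = -1) ∧ ∀ e, z e ≠ 0 ↔ e ∈ C i)
    (hcard : ∀ i, (C i \ (univ.filter (fun j => j < i)).biUnion C).card ≤ 11)
    (h : FlowOn src dst ∅ (univ.biUnion C ∪ Z)) : FlowOn src dst ∅ Z := by
  have key : ∀ j : ℕ, j ≤ m → FlowOn src dst ∅
      ((univ.filter (fun i : Fin m => (i : ℕ) < m - j)).biUnion C ∪ Z) := by
    intro j
    induction j with
    | zero =>
      intro _
      have : (univ.filter (fun i : Fin m => (i : ℕ) < m - 0)) = univ := by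
        ext i; simp
      rw [this]; exact h
    | succ j ih =>
      intro hj
      have h1 := ih (by omega)
      obtain ⟨i, hi⟩ : ∃ i : Fin m, (i : ℕ) = m - (j + 1) := ⟨⟨m - (j + 1), by omega⟩, rfl⟩
      have e1 : (univ.filter (fun a : Fin m => (a : ℕ) < m - (j + 1)))
          = univ.filter (fun a => a < i) := by
        ext a
        simp only [mem_filter, mem_univ, true_and, Fin.lt_def, hi]
      rw [e1]
      obtain ⟨z, hz1, -, hz3⟩ := hC i
      refine Pool.Agent.Y335.FL.trail_all V E src dst _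
        (C i \ (univ.filter (fun a => a < i)).biUnion C) z hz1 ?_ ?_ (hcard i) ?_
      · intro e he
        exact (hz3 e).mpr (mem_sdiff.mp he).1
      · intro e he1 he2
        by_contra h0
        exact he2 (mem_sdiff.mpr ⟨(hz3 e).mp h0, fun h2 => he1 (mem_union_left _ h2)⟩)
      · refine Pool.Agent.Y335.FL.Trail.flowOn_mono src dst ?_ h1
        intro e he
        rcases mem_union.1 he with he | he
        swap
        · exact mem_union_left _ (mem_union_right _ he)
        obtain ⟨a, ha, hea⟩ := mem_biUnion.mp he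
        have ha' : (a : ℕ) < m - j := (mem_filter.mp ha).2
        by_cases hai : a < i
        · exact mem_union_left _ (mem_union_left _
            (mem_biUnion.mpr ⟨a, mem_filter.mpr ⟨mem_univ _, hai⟩, hea⟩))
        · have hai2 : a = i := by
            apply Fin.ext
            rw [Fin.lt_def] at hai
            omega
          by_cases h2 : e ∈ (univ.filter (fun a => a < i)).biUnion C
          · exact mem_union_left _ (mem_union_left _ h2)
          · exact mem_union_right _ (mem_sdiff.mpr ⟨hai2 ▸ hea, h2⟩)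
  have h0 := key m le_rfl
  have e0 : (univ.filter (fun i : Fin m => (i : ℕ) < m - m)) = ∅ := by
    ext i; simp
  rw [e0] at h0
  simpa using h0

theorem sum_sub {M : Type} [AddCommMonoid M] (p : E → Prop) [DecidablePred p] (h : E → M)
    (h0 : ∀ e, ¬ p e → h e = 0) : ∑ e : {e // p e}, h e.1 = ∑ e, h e := by
  rw [← Finset.sum_subtype (univ.filter p) (by simp) h]
  exact sum_filter_of_ne (fun e _ he => by_contra fun hp => he (h0 e hp))

/-- an integer flow with the same zeros -/
theorem to_int (src dst : E → V) (f : E → ZMod 5) (hf : ∀ v, bd src dst f v = 0) :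
    ∃ g : E → ℤ, Bal src dst g ∧ (∀ e, |g e| ≤ 4) ∧ ∀ e, g e = 0 ↔ f e = 0 := by
  classical
  obtain ⟨G, hG1, hG2⟩ := Pool.Agent.TH497.PW.int_flow (fun e : {e // f e ≠ 0} => src e.1)
    (fun e => dst e.1) ⟨fun e => f e.1, fun e => e.2, fun x => by
      have h1 := hf x
      unfold bd at h1
      have h2 : ∀ e, ((if src e = x then f e else 0) - (if dst e = x then f e else 0))
          = f e * Pool.Agent.TH497.PW.ic src dst e x := by
        intro e
        unfold Pool.Agent.TH497.PW.ic
        by_cases h4 : src e = x <;> by_cases h5 : dst e = x <;> simp [h4, h5]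
      rw [sum_congr rfl fun e _ => h2 e] at h1
      refine Eq.trans (sum_sub (fun e => f e ≠ 0)
        (fun e => f e * Pool.Agent.TH497.PW.ic src dst e x) ?_) h1
      intro e he
      rw [not_not.1 he, zero_mul]⟩
  refine ⟨fun e => if h : f e ≠ 0 then G ⟨e, h⟩ else 0, fun v => ?_, fun e => ?_, fun e => ?_⟩
  · rw [← sum_sub (fun e => f e ≠ 0)
      (fun e => (if h : f e ≠ 0 then G ⟨e, h⟩ else 0) * ic src dst e v)]
    · rw [← hG2 v]
      refine sum_congr rfl fun e _ => ?_
      rw [dif_pos e.2]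
      rfl
    · intro e he
      rw [dif_neg he, zero_mul]
  · dsimp only
    by_cases h : f e = 0
    · rw [dif_neg (not_not.2 h)]
      simp
    · rw [dif_pos h]
      exact (hG1 _).2
  · dsimp only
    by_cases h : f e = 0
    · rw [dif_neg (not_not.2 h)]
      simp [h]
    · rw [dif_pos h]
      have := (hG1 ⟨e, h⟩).1
      constructor
      · intro h0
        rw [h0] at this
        simp at this
      · intro h0
        exact absurd h0 h

/-- **Main theorem.** -/
theorem main (src dst : E → V) (m : ℕ) (C : Fin m → Finset E)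
    (hC : ∀ i, ∃ z : E → ZMod 5, (∀ v, bd src dst z v = 0) ∧
      (∀ e, z e = 0 ∨ z e = 1 ∨ z e = -1) ∧ ∀ e, z e ≠ 0 ↔ e ∈ C i)
    (hcard : ∀ i, (C i \ (univ.filter (fun j => j < i)).biUnion C).card ≤ 11)
    (hb : ∀ X : Finset V, Disjoint (crs src dst X) (univ.biUnion C) → (crs src dst X).card ≠ 1)
    (w : E → ℝ) (hw : ∀ e, 0 ≤ w e) :
    ∃ g : E → ℤ, Bal src dst g ∧ (∀ e, |g e| ≤ 4) ∧
      210 * ∑ e ∈ univ.filter (fun e => g e = 0), w e
        ≤ 11 * ∑ e ∈ univ \ univ.biUnion C, w e := by
  classical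
  obtain ⟨F, hFd⟩ : ∃ F : Finset E, F = univ.biUnion C := ⟨_, rfl⟩
  obtain ⟨W, iF, iD, r, hs, hF, hflow, -⟩ := Pool.Agent.Y335.FL.quot' V E src dst F
  have hcut : ∀ X : Finset W, (Pool.Agent.TH467.OC.delta (r ∘ src) (r ∘ dst) X).card ≠ 1 := by
    intro X
    have h1 : crs src dst (univ.filter fun x => r x ∈ X)
        = Pool.Agent.TH467.OC.delta (r ∘ src) (r ∘ dst) X := by
      ext e
      simp [crs, Pool.Agent.TH467.OC.delta]
    rw [← h1]
    apply hb
    rw [h1, ← hFd, disjoint_left]
    intro e he heF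
    unfold Pool.Agent.TH467.OC.delta at he
    rw [mem_filter] at he
    apply he.2
    simp [hF e heF]
  obtain ⟨g, hg1, hg2, hg3⟩ := general (r ∘ src) (r ∘ dst) hcut
    (fun e => if e ∈ F then 0 else w e) (by
      intro e
      split_ifs
      · exact le_refl _
      · exact hw e)
  obtain ⟨Z, hZ⟩ : ∃ Z : Finset E, Z = univ.filter fun e => e ∉ F ∧ g e = 0 := ⟨_, rfl⟩
  have hZm : ∀ e, e ∈ Z ↔ e ∉ F ∧ g e = 0 := by
    intro e; rw [hZ]; simp
  have h0 : FlowOn (r ∘ src) (r ∘ dst) ∅ (F ∪ Z) := by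
    refine ⟨fun e => ((g e : ℤ) : ZMod 5), fun v => ?_, fun e he => absurd he (notMem_empty _),
      fun e _ he => ?_⟩
    · have h1 := congrArg (fun t : ℤ => (t : ZMod 5)) (hg1 v)
      simp only [Int.cast_sum, Int.cast_mul, Int.cast_zero] at h1
      rw [← h1]
      unfold bd
      refine sum_congr rfl fun e _ => ?_
      unfold ic
      by_cases h4 : r (src e) = v <;> by_cases h5 : r (dst e) = v <;>
        simp [Function.comp, h4, h5]
    · rw [mem_union, hZm] at he
      have h1 : g e ≠ 0 := by tauto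
      have h2 := abs_le.1 (hg2 e)
      intro h3
      rw [ZMod.intCast_zmod_eq_zero_iff_dvd] at h3
      push_cast at h3
      omega
  have h1 : FlowOn src dst ∅ (univ.biUnion C ∪ Z) := by
    refine Pool.Agent.Y335.FL.Trail.flowOn_mono src dst ?_ (hflow _ h0)
    rw [← hFd, ← union_assoc, union_self]
  obtain ⟨f, hf1, -, hf3⟩ := liftZ src dst m C Z hC hcard h1
  obtain ⟨G, hG1, hG2, hG3⟩ := to_int src dst f hf1
  refine ⟨G, hG1, hG2, ?_⟩
  have h2 : ∑ e ∈ univ.filter (fun e => G e = 0), w e ≤ ∑ e ∈ Z, w e := by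
    refine sum_le_sum_of_subset_of_nonneg ?_ fun e _ _ => hw e
    intro e he
    rw [mem_filter, hG3] at he
    by_contra h3
    exact hf3 e (notMem_empty _) h3 he.2
  have h3 : ∑ e ∈ Z, w e = ∑ e ∈ univ.filter (fun e => g e = 0), (if e ∈ F then 0 else w e) := by
    rw [hZ, sum_filter, sum_filter]
    refine sum_congr rfl fun e _ => ?_
    by_cases h4 : e ∈ F <;> by_cases h5 : g e = 0 <;> simp [h4, h5]
  have h4 : ∑ e ∈ univ \ univ.biUnion C, w e = ∑ e, (if e ∈ F then 0 else w e) := by
    rw [← hFd, ← filter_notMem_eq_sdiff, sum_filter]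
    refine sum_congr rfl fun e _ => ?_
    by_cases h4 : e ∈ F <;> simp [h4]
  rw [h4]
  linarith

end Pool.Agent.N470.FZ
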