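import Mathlib

set_option autoImplicit false
set_option linter.unusedSectionVars false

/-! # Integer flows: orientation of even edge sets, halving and quartering -/

namespace Pool.Agent.N470.FZ

open Finset

variable {V E : Type} [Fintype V] [DecidableEq V] [Fintype E] [DecidableEq E]

/-- the coefficient of the edge `e` in Kirchhoff's law at `v` -/
def ic (a b : E → V) (e : E) (v : V) : ℤ := (if a e = v then 1 else 0) - (if b e = v then 1 else 0)

/-- Kirchhoff's law -/
def Bal (a b : E → V) (f : E → ℤ) : Prop := ∀ v, ∑ e, f e * ic a b e v = 0

/-- number of ends of `e` at `v` -/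
def ne' (a b : E → V) (e : E) (v : V) : ℕ := (if a e = v then 1 else 0) + (if b e = v then 1 else 0)

/-- all degrees of the edge set `F` are even -/
def Evn (a b : E → V) (F : Finset E) : Prop := ∀ v, Even (∑ e ∈ F, ne' a b e v)

theorem sum_two (g h : E → ℤ) (e e' : E) (hne : e ≠ e')
    (h1 : ∀ x, x ≠ e → x ≠ e' → g x = h x) (h2 : g e + g e' = h e + h e') :
    ∑ x, g x = ∑ x, h x := by
  have hm : e' ∈ univ.erase e := by simp [hne.symm]
  rw [← add_sum_erase univ g (mem_univ e), ← add_sum_erase univ h (mem_univ e),
    ← add_sum_erase _ g hm, ← add_sum_erase _ h hm, ← add_assoc, ← add_assoc, h2]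
  congr 1
  refine sum_congr rfl fun x hx => h1 x ?_ ?_
  · exact (mem_erase.1 (mem_erase.1 hx).2).1
  · exact (mem_erase.1 hx).1

theorem orient : ∀ (n : ℕ) (a b : E → V) (F : Finset E), F.card = n → Evn a b F →
    ∃ φ : E → ℤ, Bal a b φ ∧ (∀ e ∈ F, φ e = 1 ∨ φ e = -1) ∧ ∀ e, e ∉ F → φ e = 0 := by
  intro n
  induction n with
  | zero =>
    intro a b F hF _
    refine ⟨fun _ => 0, fun v => by simp, ?_, fun _ _ => rfl⟩
    rw [card_eq_zero] at hF
    simp [hF]
  | succ n ih =>
    intro a b F hF hE
    by_cases hloop : ∃ e ∈ F, a e = b e
    · obtain ⟨e, he, hab⟩ := hloop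
      obtain ⟨φ, h1, h2, h3⟩ := ih a b (F.erase e) (by rw [card_erase_of_mem he]; omega) (by
        intro v
        have h := hE v
        rw [← add_sum_erase F _ he] at h
        have h' : Even (ne' a b e v) := by
          unfold ne'
          rw [hab]
          by_cases hv : b e = v <;> simp [hv]
        exact (Nat.even_add.1 h).1 h')
      refine ⟨Function.update φ e 1, fun v => ?_, fun x hx => ?_, fun x hx => ?_⟩
      · rw [← h1 v]
        refine sum_congr rfl fun x _ => ?_
        by_cases hx : x = e
        · subst hx
          simp [ic, hab]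
        · rw [Function.update_of_ne hx]
      · by_cases hxe : x = e
        · subst hxe; left; simp
        · rw [Function.update_of_ne hxe]
          exact h2 x (mem_erase.2 ⟨hxe, hx⟩)
      · have hxe : x ≠ e := fun h => hx (h ▸ he)
        rw [Function.update_of_ne hxe]
        exact h3 x (fun h => hx (mem_erase.1 h).2)
    · push Not at hloop
      obtain ⟨e, he⟩ : F.Nonempty := by
        rw [← card_pos]; omega
      have hex : ∃ e' ∈ F.erase e, ¬ Even (ne' a b e' (b e)) := by
        by_contra hcon
        push Not at hcon
        have h := hE (b e)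
        rw [← add_sum_erase F _ he] at h
        have h' : Even (∑ x ∈ F.erase e, ne' a b x (b e)) := Finset.even_sum _ hcon
        have h'' := (Nat.even_add.1 h).2 h'
        have h3 : ne' a b e (b e) = 1 := by
          unfold ne'
          simp [hloop e he]
        rw [h3] at h''
        exact absurd h'' (by decide)
      obtain ⟨e', he', hodd⟩ := hex
      obtain ⟨hne, he'F⟩ := mem_erase.1 he'
      have hnl := hloop e' he'F
      -- the other end
      have key : ∀ (w : V) (s : ℤ), (s = 1 ∨ s = -1) →
          (∀ u, ic a b e' u = s * ((if b e = u then 1 else 0) - (if w = u then 1 else 0))) →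
          (∀ u, ne' a b e' u = (if b e = u then 1 else 0) + (if w = u then 1 else 0)) →
          ∃ φ : E → ℤ, Bal a b φ ∧ (∀ e ∈ F, φ e = 1 ∨ φ e = -1) ∧ ∀ e, e ∉ F → φ e = 0 := by
        intro w s hs hic hn
        obtain ⟨φ, h1, h2, h3⟩ := ih a (Function.update b e w) (F.erase e')
          (by rw [card_erase_of_mem he'F]; omega) (by
            intro u
            have h := hE u
            rw [← add_sum_erase F _ he'F] at h
            have heF' : e ∈ F.erase e' := mem_erase.2 ⟨hne.symm, he⟩
            rw [← add_sum_erase _ _ heF'] at h ⊢
            have hrest : ∑ x ∈ (F.erase e').erase e, ne' a (Function.update b e w) x u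
                = ∑ x ∈ (F.erase e').erase e, ne' a b x u := by
              refine sum_congr rfl fun x hx => ?_
              unfold ne'
              rw [Function.update_of_ne (mem_erase.1 hx).1]
            rw [hrest]
            have h4 : ne' a (Function.update b e w) e u
                = (if a e = u then 1 else 0) + (if w = u then 1 else 0) := by
              unfold ne'
              rw [Function.update_self]
            rw [h4]
            rw [hn u] at h
            have h5 : ne' a b e u = (if a e = u then 1 else 0) + (if b e = u then 1 else 0) := rfl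
            rw [h5] at h
            obtain ⟨k, hk⟩ := h
            by_cases hb : b e = u
            · rw [if_pos hb] at hk
              exact ⟨k - 1, by omega⟩
            · rw [if_neg hb] at hk
              exact ⟨k, by omega⟩)
        have hφe' : φ e' = 0 := h3 e' (by simp)
        refine ⟨Function.update φ e' (s * φ e), fun v => ?_, fun x hx => ?_, fun x hx => ?_⟩
        · rw [← h1 v]
          apply sum_two _ _ e e' hne.symm
          · intro x hx hx'
            rw [Function.update_of_ne hx']
            unfold ic
            rw [Function.update_of_ne hx]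
          · rw [Function.update_self, Function.update_of_ne hne.symm, hφe', hic v]
            unfold ic
            rw [Function.update_self]
            have hss : s * s = 1 := by rcases hs with rfl | rfl <;> norm_num
            have : s * φ e * (s * ((if b e = v then 1 else 0) - (if w = v then 1 else 0)))
                = φ e * ((if b e = v then 1 else 0) - (if w = v then 1 else 0)) := by
              linear_combination (φ e * ((if b e = v then 1 else 0) - (if w = v then 1 else 0))) * hss
            rw [this]
            ring
        · by_cases hxe : x = e'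
          · subst hxe
            rw [Function.update_self]
            rcases h2 e (mem_erase.2 ⟨hne.symm, he⟩) with h | h <;> rcases hs with hs | hs <;>
              simp [h, hs]
          · rw [Function.update_of_ne hxe]
            exact h2 x (mem_erase.2 ⟨hxe, hx⟩)
        · have hxe : x ≠ e' := fun h => hx (h ▸ he'F)
          rw [Function.update_of_ne hxe]
          exact h3 x (fun h => hx (mem_erase.1 h).2)
      by_cases h1 : a e' = b e
      · have h2 : b e' ≠ b e := fun h => hnl (h1.trans h.symm)
        refine key (b e') 1 (Or.inl rfl) (fun u => ?_) (fun u => ?_)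
        · unfold ic
          rw [h1, one_mul]
        · unfold ne'
          rw [h1]
      · by_cases h2 : b e' = b e
        · refine key (a e') (-1) (Or.inr rfl) (fun u => ?_) (fun u => ?_)
          · unfold ic
            rw [h2]
            ring
          · unfold ne'
            rw [h2, add_comm]
        · exfalso
          apply hodd
          unfold ne'
          simp [h1, h2]

theorem halve (a b : E → V) (H : E → ℤ) (hH : Bal a b H) :
    ∃ H' : E → ℤ, Bal a b H' ∧ ∀ e, |2 * H' e - H e| ≤ 1 := by
  classical
  obtain ⟨φ, h1, h2, h3⟩ := orient _ a b (univ.filter fun e => Odd (H e)) rfl (by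
    intro v
    rw [← Int.even_coe_nat]
    push_cast
    have h4 : Even (∑ e ∈ univ.filter (fun e => Odd (H e)), (ne' a b e v : ℤ)
        - ∑ e, H e * ic a b e v) := by
      rw [sum_filter, ← sum_sub_distrib]
      refine Finset.even_sum _ fun e _ => ?_
      by_cases ho : Odd (H e)
      · rw [if_pos ho]
        obtain ⟨k, hk⟩ := ho
        unfold ne' ic
        rw [hk]
        by_cases ha : a e = v <;> by_cases hb : b e = v
        · simp only [ha, hb, if_true]; exact ⟨1, by push_cast; ring⟩
        · simp only [ha, hb, if_true, if_false]; exact ⟨-k, by push_cast; ring⟩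
        · simp only [ha, hb, if_true, if_false]; exact ⟨k + 1, by push_cast; ring⟩
        · simp only [ha, hb, if_false]; exact ⟨0, by push_cast; ring⟩
      · rw [if_neg ho]
        rw [Int.not_odd_iff_even] at ho
        rw [zero_sub, even_neg]
        exact ho.mul_right _
    rw [hH v, sub_zero] at h4
    exact h4)
  have h4 : ∀ e, Even (H e + φ e) := by
    intro e
    by_cases ho : Odd (H e)
    · rcases h2 e (by simp [ho]) with h | h <;> rw [h]
      · exact ho.add_odd (by decide)
      · exact ho.add_odd (by decide)
    · rw [h3 e (by simp [ho]), add_zero]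
      exact Int.not_odd_iff_even.1 ho
  choose H' hH' using h4
  refine ⟨H', fun v => ?_, fun e => ?_⟩
  · have h5 : (2 : ℤ) * ∑ e, H' e * ic a b e v = ∑ e, H e * ic a b e v + ∑ e, φ e * ic a b e v := by
      rw [mul_sum, ← sum_add_distrib]
      refine sum_congr rfl fun e _ => ?_
      have := hH' e
      rw [← add_mul, this]
      ring
    rw [hH v, h1 v] at h5
    omega
  · have h5 := hH' e
    have h6 : 2 * H' e - H e = φ e := by linarith
    rw [h6]
    by_cases ho : Odd (H e)
    · rcases h2 e (by simp [ho]) with h | h <;> simp [h]
    · rw [h3 e (by simp [ho])]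
      simp

theorem Bal.sub {a b : E → V} {f g : E → ℤ} (hf : Bal a b f) (hg : Bal a b g) :
    Bal a b (fun e => f e - g e) := by
  intro v
  have : ∑ e, (f e - g e) * ic a b e v = ∑ e, f e * ic a b e v - ∑ e, g e * ic a b e v := by
    rw [← sum_sub_distrib]
    exact sum_congr rfl fun e _ => sub_mul _ _ _
  rw [this, hf v, hg v, sub_zero]

theorem Bal.add {a b : E → V} {f g : E → ℤ} (hf : Bal a b f) (hg : Bal a b g) :
    Bal a b (fun e => f e + g e) := by
  intro v
  have : ∑ e, (f e + g e) * ic a b e v = ∑ e, f e * ic a b e v + ∑ e, g e * ic a b e v := by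
    rw [← sum_add_distrib]
    exact sum_congr rfl fun e _ => add_mul _ _ _
  rw [this, hf v, hg v, add_zero]

theorem Bal.smul {a b : E → V} {f : E → ℤ} (c : ℤ) (hf : Bal a b f) :
    Bal a b (fun e => c * f e) := by
  intro v
  have : ∑ e, (c * f e) * ic a b e v = c * ∑ e, f e * ic a b e v := by
    rw [mul_sum]
    exact sum_congr rfl fun e _ => mul_assoc _ _ _
  rw [this, hf v, mul_zero]

/-- an integer flow `H` is the sum of four integer flows which differ from `H / 4` by at most `3 / 4` -/
theorem quarter (a b : E → V) (H : E → ℤ) (hH : Bal a b H) :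
    ∃ g : Fin 4 → E → ℤ, (∀ i, Bal a b (g i)) ∧ (∀ i e, |4 * g i e - H e| ≤ 3) ∧
      ∀ e, ∑ i, g i e = H e := by
  obtain ⟨P, hP, hP1⟩ := halve a b H hH
  have hQ := hH.sub hP
  obtain ⟨p, hp, hp1⟩ := halve a b P hP
  obtain ⟨q, hq, hq1⟩ := halve a b _ hQ
  refine ⟨![p, fun e => P e - p e, q, fun e => (H e - P e) - q e], ?_, ?_, ?_⟩
  · intro i
    fin_cases i
    · exact hp
    · exact hP.sub hp
    · exact hq
    · exact hQ.sub hq
  · intro i e
    have h1 := abs_le.1 (hP1 e)
    have h2 := abs_le.1 (hp1 e)
    have h3 := abs_le.1 (hq1 e)
    fin_cases i <;> rw [abs_le] <;> constructor <;> simp at * <;> omega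
  · intro e
    rw [Fin.sum_univ_four]
    simp

end Pool.Agent.N470.FZ
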