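import Pool.Agent.N470.FZ.Cubic

set_option autoImplicit false
set_option linter.unusedSectionVars false

/-! # Flows with few zeros in bridgeless multigraphs -/

namespace Pool.Agent.N470.FZ

open Finset Pool.Agent.H249R2.PM Pool.Agent.TH467.OC

variable {V E : Type} [Fintype V] [DecidableEq V] [Fintype E] [DecidableEq E]

/-- the vertex of a dart -/
def base (src dst : E → V) (d : E × Bool) : V := if d.2 then dst d.1 else src d.1

/-- identification of vertices -/
theorem Bal.map {W : Type} [Fintype W] [DecidableEq W] {a b : E → W} {f : E → ℤ} (h : Bal a b f)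
    (r : W → V) : Bal (fun e => r (a e)) (fun e => r (b e)) f := by
  intro v
  have h1 : ∀ e, f e * ic (fun e => r (a e)) (fun e => r (b e)) e v
      = ∑ x ∈ univ.filter (fun x => r x = v), f e * ic a b e x := by
    intro e
    rw [← mul_sum]
    congr 1
    unfold ic
    rw [sum_sub_distrib, sum_ite_eq, sum_ite_eq]
    simp
  rw [sum_congr rfl fun e _ => h1 e, sum_comm]
  exact sum_eq_zero fun x _ => h x

/-- a permutation of the darts whose cycles are the sets of the darts at a vertex -/
theorem exists_nxt (src dst : E → V) : ∃ nxt : Equiv.Perm (E × Bool),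
    (∀ d, base src dst (nxt d) = base src dst d) ∧
    (∀ Y : Finset (E × Bool), (∀ d, d ∈ Y ↔ nxt d ∈ Y) →
      ∀ d d', base src dst d = base src dst d' → (d ∈ Y ↔ d' ∈ Y)) := by
  classical
  have h1 : ∀ v : V, ∃ f : Equiv.Perm (E × Bool),
      f.IsCycleOn ((univ.filter fun d => base src dst d = v : Finset (E × Bool)) : Set (E × Bool)) := by
    intro v
    obtain ⟨f, hf, -⟩ := (univ.filter fun d => base src dst d = v : Finset (E × Bool)).exists_cycleOn
    exact ⟨f, hf⟩
  choose σ hσ using h1
  have hbase : ∀ d, base src dst (σ (base src dst d) d) = base src dst d := by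
    intro d
    have h := (hσ (base src dst d)).1.mapsTo (x := d) (by simp)
    simpa using h
  have hinj : Function.Injective fun d => σ (base src dst d) d := by
    intro d d' h
    have h' : σ (base src dst d) d = σ (base src dst d') d' := h
    have h2 : base src dst d = base src dst d' := by
      rw [← hbase d, ← hbase d', h']
    rw [h2] at h'
    exact (σ (base src dst d')).injective h'
  refine ⟨Equiv.ofBijective _ ((Finite.injective_iff_bijective).1 hinj), hbase, ?_⟩
  intro Y hY d d' hdd
  have hY' : ∀ d, d ∈ Y ↔ σ (base src dst d) d ∈ Y := hY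
  set v := base src dst d with hv
  obtain ⟨n, -, hn⟩ := (hσ v).exists_pow_eq (a := d) (b := d') (by simp [hv]) (by simp [hdd])
  have key : ∀ n : ℕ, base src dst ((σ v ^ n) d) = v ∧ (d ∈ Y ↔ (σ v ^ n) d ∈ Y) := by
    intro n
    induction n with
    | zero => simp [hv]
    | succ n ih =>
      obtain ⟨ih1, ih2⟩ := ih
      rw [pow_succ', Equiv.Perm.mul_apply]
      have h3 := hbase ((σ v ^ n) d)
      rw [ih1] at h3
      refine ⟨h3, ?_⟩
      rw [ih2, hY' ((σ v ^ n) d), ih1]
  rw [(key n).2, hn]

section cubicGraph

variable (src dst : E → V) (nxt : Equiv.Perm (E × Bool))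

/-- the first ends of the edges of the cubic graph -/
def ca : E ⊕ (E × Bool) → E × Bool := Sum.elim (fun e => (e, false)) id

/-- the second ends of the edges of the cubic graph -/
def cb : E ⊕ (E × Bool) → E × Bool := Sum.elim (fun e => (e, true)) nxt

/-- the number of the darts leaving a set is the number of the darts entering it -/
theorem in_out (X : Finset (E × Bool)) :
    (univ.filter fun d => d ∈ X ∧ nxt d ∉ X).card = (univ.filter fun d => d ∉ X ∧ nxt d ∈ X).card := by
  have h1 : (univ.filter fun d => nxt d ∈ X).card = X.card := by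
    have : (univ.filter fun d => nxt d ∈ X) = X.map nxt.symm.toEmbedding := by
      ext d
      simp
    rw [this, card_map]
  have h2 : (univ.filter fun d => d ∈ X ∧ nxt d ∈ X).card
      + (univ.filter fun d => d ∈ X ∧ nxt d ∉ X).card = X.card := by
    rw [← card_union_of_disjoint]
    · congr 1
      ext d
      simp only [mem_union, mem_filter, mem_univ, true_and]
      tauto
    · rw [disjoint_left]
      intro d h3 h4
      exact (mem_filter.1 h4).2.2 (mem_filter.1 h3).2.2
  have h3 : (univ.filter fun d => d ∈ X ∧ nxt d ∈ X).card
      + (univ.filter fun d => d ∉ X ∧ nxt d ∈ X).card = (univ.filter fun d => nxt d ∈ X).card := by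
    rw [← card_union_of_disjoint]
    · congr 1
      ext d
      simp only [mem_union, mem_filter, mem_univ, true_and]
      tauto
    · rw [disjoint_left]
      intro d h3 h4
      exact (mem_filter.1 h4).2.1 (mem_filter.1 h3).2.1
  omega

/-- the cuts of the cubic graph -/
theorem cut_split (X : Finset (E × Bool)) :
    (delta ca (cb nxt) X).card
      = (univ.filter fun e : E => ¬ ((e, false) ∈ X ↔ (e, true) ∈ X)).card
        + 2 * (univ.filter fun d => d ∈ X ∧ nxt d ∉ X).card := by
  have h1 : (delta ca (cb nxt) X).card
      = (univ.filter fun e : E => ¬ ((e, false) ∈ X ↔ (e, true) ∈ X)).card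
        + (univ.filter fun d => ¬ (d ∈ X ↔ nxt d ∈ X)).card := by
    unfold delta
    rw [card_filter, card_filter, card_filter, Fintype.sum_sum_type]
    rfl
  have h2 : (univ.filter fun d => ¬ (d ∈ X ↔ nxt d ∈ X)).card
      = (univ.filter fun d => d ∈ X ∧ nxt d ∉ X).card
        + (univ.filter fun d => d ∉ X ∧ nxt d ∈ X).card := by
    rw [← card_union_of_disjoint]
    · congr 1
      ext d
      simp only [mem_union, mem_filter, mem_univ, true_and]
      tauto
    · rw [disjoint_left]
      intro d h3 h4
      exact (mem_filter.1 h4).2.1 (mem_filter.1 h3).2.1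
  rw [h1, h2, ← in_out nxt X]
  ring

end cubicGraph

/-- **Bridgeless multigraphs.** -/
theorem general (src dst : E → V)
    (hb : ∀ X : Finset V, (delta src dst X).card ≠ 1) (w : E → ℝ) (hw : ∀ e, 0 ≤ w e) :
    ∃ g : E → ℤ, Bal src dst g ∧ (∀ e, |g e| ≤ 4) ∧
      210 * ∑ e ∈ univ.filter (fun e => g e = 0), w e ≤ 11 * ∑ e, w e := by
  classical
  obtain ⟨nxt, hn1, hn2⟩ := exists_nxt src dst
  -- no fixed darts
  have hfix : ∀ d, nxt d ≠ d := by
    intro d hd
    have h1 : ∀ d', base src dst d' = base src dst d → d' = d := by
      intro d' h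
      have h2 := hn2 {d} (fun x => by
        rw [mem_singleton, mem_singleton]
        constructor
        · rintro rfl; exact hd
        · intro h3
          rw [← hd] at h3
          exact nxt.injective h3) d' d h
      simpa using h2
    refine hb {base src dst d} ?_
    rw [card_eq_one]
    refine ⟨d.1, ?_⟩
    ext e
    simp only [delta, mem_filter, mem_univ, true_and, mem_singleton]
    have h3 : src e = base src dst d ↔ (e, false) = d := by
      constructor
      · intro h
        exact h1 (e, false) h
      · intro h
        rw [← h]; rfl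
    have h4 : dst e = base src dst d ↔ (e, true) = d := by
      constructor
      · intro h
        exact h1 (e, true) h
      · intro h
        rw [← h]; rfl
    rw [h3, h4]
    obtain ⟨e0, b0⟩ := d
    cases b0 <;> simp
  have hG : RG 3 (ca : E ⊕ (E × Bool) → E × Bool) (cb nxt) := by
    refine rg_three ?_ ?_ ?_
    · rintro (e | d)
      · simp [ca, cb]
      · exact fun h => hfix d h.symm
    · intro d
      have h1 : (univ.filter fun e => ca e = d ∨ cb nxt e = d)
          = {Sum.inl d.1, Sum.inr d, Sum.inr (nxt.symm d)} := by
        ext e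
        simp only [mem_filter, mem_univ, true_and, mem_insert, mem_singleton]
        rcases e with e | d'
        · simp only [ca, cb, Sum.elim_inl, Sum.inl.injEq, reduceCtorEq, or_false]
          obtain ⟨e0, b0⟩ := d
          cases b0 <;> simp
        · simp only [ca, cb, Sum.elim_inr, id, Sum.inr.injEq, reduceCtorEq, false_or]
          rw [Equiv.eq_symm_apply]
      rw [h1, card_insert_of_notMem, card_insert_of_notMem, card_singleton]
      · rw [mem_singleton]
        intro h
        have h2 := Sum.inr.inj h
        rw [Equiv.eq_symm_apply] at h2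
        exact hfix d h2
      · simp
    · intro X hX
      rw [cut_split] at hX
      have hc0 : (univ.filter fun d => d ∈ X ∧ nxt d ∉ X).card = 0 := by omega
      have hc1 : (univ.filter fun e : E => ¬ ((e, false) ∈ X ↔ (e, true) ∈ X)).card = 1 := by omega
      have hc2 := in_out nxt X
      rw [hc0] at hc2
      have hcl : ∀ d, d ∈ X ↔ nxt d ∈ X := by
        intro d
        constructor
        · intro h
          by_contra h'
          have : d ∈ (univ.filter fun d => d ∈ X ∧ nxt d ∉ X) := by simp [h, h']
          rw [card_eq_zero] at hc0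
          rw [hc0] at this
          simp at this
        · intro h
          by_contra h'
          have : d ∈ (univ.filter fun d => d ∉ X ∧ nxt d ∈ X) := by simp [h, h']
          rw [eq_comm, card_eq_zero] at hc2
          rw [hc2] at this
          simp at this
      have hst := hn2 X hcl
      have hmem : ∀ d, base src dst d ∈ X.image (base src dst) ↔ d ∈ X := by
        intro d
        rw [mem_image]
        constructor
        · rintro ⟨d', h1, h2⟩
          exact (hst d' d h2).1 h1
        · intro h
          exact ⟨d, h, rfl⟩
      refine hb (X.image (base src dst)) ?_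
      rw [← hc1]
      congr 1
      ext e
      simp only [delta, mem_filter, mem_univ, true_and]
      rw [← hmem (e, false), ← hmem (e, true)]
      rfl
  obtain ⟨g, hg1, hg2, hg3⟩ := cubic hG (Sum.elim w fun _ => 0) (by
    rintro (e | d)
    · exact hw e
    · exact le_refl _)
  refine ⟨fun e => g (Sum.inl e), fun v => ?_, fun e => hg2 _, ?_⟩
  · have h1 := (hg1.map (base src dst)) v
    rw [Fintype.sum_sum_type] at h1
    have h2 : ∑ d : E × Bool, g (Sum.inr d) * ic (fun e => base src dst (ca e))
        (fun e => base src dst (cb nxt e)) (Sum.inr d) v = 0 := by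
      refine sum_eq_zero fun d _ => ?_
      have : ic (fun e => base src dst (ca e)) (fun e => base src dst (cb nxt e)) (Sum.inr d) v
          = 0 := by
        unfold ic
        simp only [ca, cb, Sum.elim_inr, id, hn1 d]
        exact sub_self _
      rw [this, mul_zero]
    rw [h2, add_zero] at h1
    exact h1
  · have h1 : ∑ e, (Sum.elim w (fun _ => 0) : E ⊕ (E × Bool) → ℝ) e = ∑ e, w e := by
      rw [Fintype.sum_sum_type]
      simp
    have h2 : ∑ e ∈ univ.filter (fun e => g e = 0), (Sum.elim w (fun _ => 0) : E ⊕ (E × Bool) → ℝ) e
        = ∑ e ∈ univ.filter (fun e => g (Sum.inl e) = 0), w e := by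
      rw [sum_filter, sum_filter, Fintype.sum_sum_type]
      simp
    rw [h1, h2] at hg3
    exact hg3

end Pool.Agent.N470.FZ
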