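import Pool.Agent.N470.FZ.Flow
import Pool.Agent.H239R2.Cover.BelowSix
import Pool.Agent.H170.Reg.Gr

set_option autoImplicit false
set_option linter.unusedSectionVars false

/-! # Nowhere-zero 6-flows with few values `5` -/

namespace Pool.Agent.N470.FZ

open Finset Pool.Agent.H239R2.Cover

variable {V E : Type} [Fintype V] [DecidableEq V] [Fintype E] [DecidableEq E]

/-- rounding of real flows -/
theorem round_flow (src dst : E → V) (f : E → ℝ)
    (hf : ∀ v, ∑ e, f e * ((if src e = v then 1 else 0) - (if dst e = v then 1 else 0)) = 0) :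
    ∃ g : E → ℤ, Bal src dst g ∧ ∀ e, ⌊f e⌋ ≤ g e ∧ g e ≤ ⌈f e⌉ := by
  classical
  rcases isEmpty_or_nonempty V with hV | ⟨⟨r⟩⟩
  · exact ⟨fun _ => 0, fun v => (hV.false v).elim, fun e => (hV.false (src e)).elim⟩
  obtain ⟨S, hS1, hS2, -⟩ := rounding' (inc src dst r) (unimod_inc src dst r)
    (fun e => Int.fract (f e)) (fun e => Int.fract_nonneg _) (fun e => (Int.fract_lt_one _).le)
    (fun v => - ∑ e, ⌊f e⌋ * inc src dst r e v) (by
      ext v
      simp only [Finset.sum_apply, Pi.smul_apply, smul_eq_mul, rv]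
      have h := hf v.1
      have h1 : ∀ e, Int.fract (f e) * ((inc src dst r e v : ℤ) : ℝ)
          = f e * ((if src e = v.1 then 1 else 0) - (if dst e = v.1 then 1 else 0))
            - (⌊f e⌋ : ℝ) * ((inc src dst r e v : ℤ) : ℝ) := by
        intro e
        unfold inc
        push_cast
        rw [Int.fract]
        ring
      rw [sum_congr rfl fun e _ => h1 e, sum_sub_distrib, h, zero_sub]
      push_cast
      rfl)
  refine ⟨fun e => ⌊f e⌋ + if e ∈ S then 1 else 0, fun v => ?_, fun e => ?_⟩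
  · refine Pool.Agent.H170.Reg.flow_root src dst _ r (fun v hv => ?_) v
    have h1 := congrFun hS1 ⟨v, hv⟩
    simp only [Finset.sum_apply] at h1
    have h2 : ∑ e ∈ S, inc src dst r e ⟨v, hv⟩
        = ∑ e, (if e ∈ S then 1 else 0) * inc src dst r e ⟨v, hv⟩ := by
      simp only [ite_mul, one_mul, zero_mul]
      rw [Finset.sum_ite_mem, univ_inter]
    rw [h2] at h1
    have h3 : ∀ e, (⌊f e⌋ + if e ∈ S then 1 else 0) *
        ((if src e = v then (1:ℤ) else 0) - (if dst e = v then 1 else 0))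
        = ⌊f e⌋ * inc src dst r e ⟨v, hv⟩ + (if e ∈ S then 1 else 0) * inc src dst r e ⟨v, hv⟩ := by
      intro e
      unfold inc
      ring
    rw [sum_congr rfl fun e _ => h3 e, sum_add_distrib, h1]
    ring
  · dsimp only
    by_cases he : e ∈ S
    · rw [if_pos he]
      have h1 : Int.fract (f e) ≠ 0 := hS2 e he
      refine ⟨by omega, ?_⟩
      rw [Int.add_one_le_iff, Int.lt_ceil]
      have h2 := Int.fract_nonneg (f e)
      rcases lt_or_eq_of_le h2 with h3 | h3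
      · rw [Int.fract] at h3
        linarith
      · exact absurd h3.symm h1
    · rw [if_neg he, add_zero]
      exact ⟨le_rfl, Int.floor_le_ceil _⟩

/-- **Seymour's 6-flow theorem** (starting files: circular flows below six) -/
theorem six (src dst : E → V) (hb : ∀ X : Finset V, (ecut src dst X).card ≠ 1) :
    ∃ g : E → ℤ, Bal src dst g ∧ ∀ e, 1 ≤ |g e| ∧ |g e| ≤ 5 := by
  rcases isEmpty_or_nonempty V with hV | hV
  · exact ⟨fun _ => 0, fun v => (hV.false v).elim, fun e => (hV.false (src e)).elim⟩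
  obtain ⟨N, hN⟩ : ∃ N, Fintype.card V = N + 1 :=
    ⟨Fintype.card V - 1, by have := Fintype.card_pos (α := V); omega⟩
  obtain ⟨f, hf, hf0⟩ := circ_flow_bridgeless N V E src dst hN hb
  obtain ⟨g, hg1, hg2⟩ := round_flow src dst f (fun v => by
    have h1 := congrFun hf0 v
    rw [bdry_apply, Pi.zero_apply] at h1
    exact h1)
  refine ⟨g, hg1, fun e => ?_⟩
  have h1 := (hf e).1
  have h2 : |f e| ≤ 5 := by
    refine (hf e).2.trans ?_
    rw [div_le_iff₀ (by positivity)]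
    have : (0 : ℝ) ≤ N := Nat.cast_nonneg N
    linarith
  obtain ⟨h3, h4⟩ := hg2 e
  rcases le_abs.1 h1 with h5 | h5
  · rw [abs_of_nonneg (by linarith)] at h2
    have h6 : (1 : ℤ) ≤ ⌊f e⌋ := Int.le_floor.2 (by exact_mod_cast h5)
    have h7 : ⌈f e⌉ ≤ 5 := Int.ceil_le.2 (by exact_mod_cast h2)
    rw [abs_of_nonneg (by omega)]
    omega
  · rw [abs_of_nonpos (by linarith)] at h2
    have h6 : (-5 : ℤ) ≤ ⌊f e⌋ := Int.le_floor.2 (by push_cast; linarith)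
    have h7 : ⌈f e⌉ ≤ -1 := Int.ceil_le.2 (by push_cast; linarith)
    rw [abs_of_nonpos (by omega)]
    omega

/-- supports of `{0, 1, -1}`-flows -/
def Two (a b : E → V) (A : Finset E) : Prop :=
  ∃ α : E → ℤ, Bal a b α ∧ ∀ e, (e ∈ A ∧ (α e = 1 ∨ α e = -1)) ∨ (e ∉ A ∧ α e = 0)

/-- supports of flows with values at most two -/
def Thr (a b : E → V) (B : Finset E) : Prop :=
  ∃ β : E → ℤ, Bal a b β ∧
    ∀ e, (e ∈ B ∧ (β e = 1 ∨ β e = -1 ∨ β e = 2 ∨ β e = -2)) ∨ (e ∉ B ∧ β e = 0)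

theorem two_of {a b : E → V} {H : E → ℤ} (hH : Bal a b H) :
    Two a b (univ.filter fun e => Odd (H e)) := by
  obtain ⟨P, hP, hP1⟩ := halve a b H hH
  refine ⟨fun e => 2 * P e - H e, (hP.smul 2).sub hH, fun e => ?_⟩
  have h1 := abs_le.1 (hP1 e)
  simp only [mem_filter, mem_univ, true_and]
  rcases Int.even_or_odd (H e) with h | h
  · right
    refine ⟨Int.not_odd_iff_even.2 h, ?_⟩
    obtain ⟨k, hk⟩ := h
    omega
  · left
    refine ⟨h, ?_⟩
    obtain ⟨k, hk⟩ := h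
    omega

theorem thr_of {a b : E → V} {H : E → ℤ} (hH : Bal a b H) :
    Thr a b (univ.filter fun e => ¬ (3 : ℤ) ∣ H e) := by
  obtain ⟨g, hg1, hg2⟩ := round_flow a b (fun e => (H e : ℝ) / 3) (fun v => by
    have h1 := congrArg (fun t : ℤ => (t : ℝ)) (hH v)
    simp only [Int.cast_sum, Int.cast_mul, Int.cast_zero] at h1
    have h2 : ∀ e, (H e : ℝ) / 3 * ((if a e = v then 1 else 0) - (if b e = v then 1 else 0))
        = (H e : ℝ) * ((ic a b e v : ℤ) : ℝ) / 3 := by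
      intro e
      unfold ic
      push_cast
      ring
    rw [sum_congr rfl fun e _ => h2 e, ← sum_div, h1, zero_div])
  refine ⟨fun e => H e - 3 * g e, hH.sub (hg1.smul 3), fun e => ?_⟩
  obtain ⟨h1, h2⟩ := hg2 e
  have h3 : H e - 3 * g e ≤ 2 := by
    have h4 := Int.lt_floor_add_one ((H e : ℝ) / 3)
    have h5 : (⌊(H e : ℝ) / 3⌋ : ℝ) ≤ g e := by exact_mod_cast h1
    have h6 : (H e : ℝ) < 3 * g e + 3 := by linarith
    have h7 : H e < 3 * g e + 3 := by exact_mod_cast h6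
    omega
  have h4 : -2 ≤ H e - 3 * g e := by
    have h4 := Int.ceil_lt_add_one ((H e : ℝ) / 3)
    have h5 : (g e : ℝ) ≤ (⌈(H e : ℝ) / 3⌉ : ℝ) := by exact_mod_cast h2
    have h6 : 3 * (g e : ℝ) < H e + 3 := by linarith
    have h7 : 3 * g e < H e + 3 := by exact_mod_cast h6
    omega
  simp only [mem_filter, mem_univ, true_and]
  by_cases h5 : (3 : ℤ) ∣ H e
  · right
    refine ⟨not_not.2 h5, ?_⟩
    omega
  · left
    refine ⟨h5, ?_⟩
    omega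

/-- the weight of a set -/
def wt (w : E → ℝ) (S : Finset E) : ℝ := ∑ e, if e ∈ S then w e else 0

theorem wt_eq (w : E → ℝ) (S : Finset E) : wt w S = ∑ e ∈ S, w e := by
  unfold wt
  rw [sum_ite_mem, univ_inter]

/-- shift of the 3-flow -/
theorem shiftT {a b : E → V} {A B : Finset E} (hA : Two a b A) (hB : Thr a b B)
    (hAB : ∀ e, e ∈ A ∨ e ∈ B) (w : E → ℝ) :
    ∃ B', Thr a b B' ∧ (∀ e, e ∈ A ∨ e ∈ B') ∧ 3 * wt w (A ∩ B') ≤ 2 * wt w A := by
  classical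
  obtain ⟨α, hα, hα'⟩ := hA
  obtain ⟨β, hβ, hβ'⟩ := hB
  have key : ∀ t : ℤ, Thr a b (univ.filter fun e => ¬ (3 : ℤ) ∣ (β e + t * α e)) :=
    fun t => thr_of (hβ.add (hα.smul t))
  have hcov : ∀ t : ℤ, ∀ e, e ∈ A ∨ e ∈ univ.filter fun e => ¬ (3 : ℤ) ∣ (β e + t * α e) := by
    intro t e
    rcases hα' e with ⟨h, -⟩ | ⟨h, h2⟩
    · exact Or.inl h
    · right
      rw [mem_filter, h2, mul_zero, add_zero]
      refine ⟨mem_univ _, ?_⟩
      rcases hβ' e with ⟨-, h3⟩ | ⟨h3, -⟩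
      · omega
      · exact absurd (hAB e) (by tauto)
  have hsum : wt w (A ∩ univ.filter fun e => ¬ (3 : ℤ) ∣ (β e + 0 * α e))
      + wt w (A ∩ univ.filter fun e => ¬ (3 : ℤ) ∣ (β e + 1 * α e))
      + wt w (A ∩ univ.filter fun e => ¬ (3 : ℤ) ∣ (β e + 2 * α e)) = 2 * wt w A := by
    unfold wt
    rw [← sum_add_distrib, ← sum_add_distrib, mul_sum]
    refine sum_congr rfl fun e _ => ?_
    simp only [mem_inter, mem_filter, mem_univ, true_and]
    rcases hα' e with ⟨h, h2⟩ | ⟨h, h2⟩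
    · have h3 : β e = 0 ∨ β e = 1 ∨ β e = -1 ∨ β e = 2 ∨ β e = -2 := by
        rcases hβ' e with ⟨-, h3⟩ | ⟨-, h3⟩ <;> omega
      have h4 : (¬ (3 : ℤ) ∣ (β e + 0 * α e) ∧ ¬ (3 : ℤ) ∣ (β e + 1 * α e) ∧ (3 : ℤ) ∣ (β e + 2 * α e))
          ∨ (¬ (3 : ℤ) ∣ (β e + 0 * α e) ∧ (3 : ℤ) ∣ (β e + 1 * α e) ∧ ¬ (3 : ℤ) ∣ (β e + 2 * α e))
          ∨ ((3 : ℤ) ∣ (β e + 0 * α e) ∧ ¬ (3 : ℤ) ∣ (β e + 1 * α e) ∧ ¬ (3 : ℤ) ∣ (β e + 2 * α e)) := by
        rcases h2 with h2 | h2 <;> rw [h2] <;> omega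
      rcases h4 with ⟨c1, c2, c3⟩ | ⟨c1, c2, c3⟩ | ⟨c1, c2, c3⟩ <;> simp only [h, c1, c2, c3] <;>
        simp <;> ring
    · simp [h]
  by_cases h0 : 3 * wt w (A ∩ univ.filter fun e => ¬ (3 : ℤ) ∣ (β e + 0 * α e)) ≤ 2 * wt w A
  · exact ⟨_, key 0, hcov 0, h0⟩
  by_cases h1 : 3 * wt w (A ∩ univ.filter fun e => ¬ (3 : ℤ) ∣ (β e + 1 * α e)) ≤ 2 * wt w A
  · exact ⟨_, key 1, hcov 1, h1⟩
  · refine ⟨_, key 2, hcov 2, ?_⟩
    linarith

/-- change of the 2-flow -/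
theorem shiftS {a b : E → V} {A B : Finset E} (hA : Two a b A) (hB : Thr a b B)
    (hAB : ∀ e, e ∈ A ∨ e ∈ B) (w : E → ℝ) :
    ∃ A', Two a b A' ∧ (∀ e, e ∈ A' ∨ e ∈ B) ∧ 2 * wt w (A' ∩ B) ≤ wt w B := by
  classical
  obtain ⟨α, hα, hα'⟩ := hA
  obtain ⟨β, hβ, hβ'⟩ := hB
  obtain ⟨P, hP, hP1⟩ := halve a b β hβ
  have key : ∀ s t : ℤ, Two a b (univ.filter fun e => Odd (α e + s * β e + t * P e)) :=
    fun s t => two_of ((hα.add (hβ.smul s)).add (hP.smul t))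
  have hcov : ∀ s t : ℤ, ∀ e, e ∈ (univ.filter fun e => Odd (α e + s * β e + t * P e)) ∨ e ∈ B := by
    intro s t e
    rcases hβ' e with ⟨h, -⟩ | ⟨h, h2⟩
    · exact Or.inr h
    · left
      have h3 := abs_le.1 (hP1 e)
      have h4 : P e = 0 := by omega
      rw [mem_filter, h2, h4, mul_zero, mul_zero, add_zero, add_zero]
      refine ⟨mem_univ _, ?_⟩
      rcases hα' e with ⟨-, h3⟩ | ⟨h3, -⟩
      · rcases h3 with h3 | h3 <;> rw [h3] <;> decide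
      · exact absurd (hAB e) (by tauto)
  have hsum : wt w ((univ.filter fun e => Odd (α e + 0 * β e + 0 * P e)) ∩ B)
      + wt w ((univ.filter fun e => Odd (α e + 1 * β e + 0 * P e)) ∩ B)
      + wt w ((univ.filter fun e => Odd (α e + 0 * β e + 1 * P e)) ∩ B)
      + wt w ((univ.filter fun e => Odd (α e + 1 * β e + 1 * P e)) ∩ B) = 2 * wt w B := by
    unfold wt
    rw [← sum_add_distrib, ← sum_add_distrib, ← sum_add_distrib, mul_sum]
    refine sum_congr rfl fun e _ => ?_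
    simp only [mem_inter, mem_filter, mem_univ, true_and, Int.odd_iff]
    rcases hβ' e with ⟨h, h2⟩ | ⟨h, h2⟩
    · have h3 := abs_le.1 (hP1 e)
      have h5 : (β e = 1 ∨ β e = -1) ∨ ((β e = 2 ∨ β e = -2) ∧ (P e = 1 ∨ P e = -1)) := by omega
      rcases h5 with h5 | ⟨h5, h6⟩
      · have c1 : (α e + 1 * β e + 0 * P e) % 2 = 1 ↔ ¬ (α e + 0 * β e + 0 * P e) % 2 = 1 := by
          rcases h5 with h5 | h5 <;> rw [h5] <;> omega
        have c2 : (α e + 1 * β e + 1 * P e) % 2 = 1 ↔ ¬ (α e + 0 * β e + 1 * P e) % 2 = 1 := by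
          rcases h5 with h5 | h5 <;> rw [h5] <;> omega
        by_cases d1 : (α e + 0 * β e + 0 * P e) % 2 = 1 <;>
          by_cases d2 : (α e + 0 * β e + 1 * P e) % 2 = 1 <;> simp only [c1, c2, h, d1, d2] <;>
            simp <;> ring
      · have c1 : (α e + 0 * β e + 1 * P e) % 2 = 1 ↔ ¬ (α e + 0 * β e + 0 * P e) % 2 = 1 := by
          rcases h6 with h6 | h6 <;> rw [h6] <;> omega
        have c2 : (α e + 1 * β e + 1 * P e) % 2 = 1 ↔ ¬ (α e + 1 * β e + 0 * P e) % 2 = 1 := by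
          rcases h6 with h6 | h6 <;> rw [h6] <;> omega
        by_cases d1 : (α e + 0 * β e + 0 * P e) % 2 = 1 <;>
          by_cases d2 : (α e + 1 * β e + 0 * P e) % 2 = 1 <;> simp only [c1, c2, h, d1, d2] <;>
            simp <;> ring
    · simp [h]
  by_cases h0 : 2 * wt w ((univ.filter fun e => Odd (α e + 0 * β e + 0 * P e)) ∩ B) ≤ wt w B
  · exact ⟨_, key 0 0, hcov 0 0, h0⟩
  by_cases h1 : 2 * wt w ((univ.filter fun e => Odd (α e + 1 * β e + 0 * P e)) ∩ B) ≤ wt w B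
  · exact ⟨_, key 1 0, hcov 1 0, h1⟩
  by_cases h2 : 2 * wt w ((univ.filter fun e => Odd (α e + 0 * β e + 1 * P e)) ∩ B) ≤ wt w B
  · exact ⟨_, key 0 1, hcov 0 1, h2⟩
  · refine ⟨_, key 1 1, hcov 1 1, ?_⟩
    linarith

theorem avg {n : ℕ} (hn : 0 < n) (F : Fin n → ℝ) : ∃ i, n * F i ≤ ∑ j, F j := by
  have : Nonempty (Fin n) := ⟨⟨0, hn⟩⟩
  obtain ⟨i, -, hi⟩ := exists_min_image univ F univ_nonempty
  refine ⟨i, ?_⟩
  have h1 : ∑ _j : Fin n, F i ≤ ∑ j, F j := sum_le_sum fun j hj => hi j hj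
  rw [sum_const, card_univ, Fintype.card_fin, nsmul_eq_mul] at h1
  exact h1

/-- **6-flows with few values `5`.** -/
theorem few_fives (src dst : E → V) (hb : ∀ X : Finset V, (ecut src dst X).card ≠ 1)
    (w : E → ℝ) (hw : ∀ e, 0 ≤ w e) :
    ∃ f : E → ℤ, Bal src dst f ∧ (∀ e, 1 ≤ |f e| ∧ |f e| ≤ 5) ∧
      15 * ∑ e ∈ univ.filter (fun e => |f e| = 5), w e ≤ ∑ e, w e := by
  classical
  obtain ⟨g, hg, hg'⟩ := six src dst hb
  have hne : (univ.filter fun p : Finset E × Finset E =>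
      Two src dst p.1 ∧ Thr src dst p.2 ∧ ∀ e, e ∈ p.1 ∨ e ∈ p.2).Nonempty := by
    refine ⟨(univ.filter fun e => Odd (g e), univ.filter fun e => ¬ (3 : ℤ) ∣ g e), ?_⟩
    rw [mem_filter]
    refine ⟨mem_univ _, two_of hg, thr_of hg, fun e => ?_⟩
    simp only [mem_filter, mem_univ, true_and]
    by_contra hcon
    push Not at hcon
    obtain ⟨h1, h2⟩ := hcon
    rw [Int.not_odd_iff_even] at h1
    obtain ⟨k, hk⟩ := h1
    obtain ⟨h3, h4⟩ := hg' e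
    have h5 := abs_le.1 h4
    have h6 : g e = 0 := by omega
    rw [h6] at h3
    simp at h3
  obtain ⟨⟨A, B⟩, hmem, hmin⟩ := exists_min_image _ (fun p : Finset E × Finset E => wt w (p.1 ∩ p.2)) hne
  rw [mem_filter] at hmem
  obtain ⟨-, hA, hB, hAB⟩ := hmem
  simp only at hA hB hAB
  have hx1 : 3 * wt w (A ∩ B) ≤ 2 * wt w A := by
    obtain ⟨B', h1, h2, h3⟩ := shiftT hA hB hAB w
    have h4 := hmin (A, B') (by rw [mem_filter]; exact ⟨mem_univ _, hA, h1, h2⟩)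
    simp only at h4
    linarith
  have hx2 : 2 * wt w (A ∩ B) ≤ wt w B := by
    obtain ⟨A', h1, h2, h3⟩ := shiftS hA hB hAB w
    have h4 := hmin (A', B) (by rw [mem_filter]; exact ⟨mem_univ _, h1, hB, h2⟩)
    simp only at h4
    linarith
  have hx3 : wt w A + wt w B = ∑ e, w e + wt w (A ∩ B) := by
    unfold wt
    rw [← sum_add_distrib, ← sum_add_distrib]
    refine sum_congr rfl fun e _ => ?_
    rcases hAB e with h | h
    · by_cases h' : e ∈ B <;> simp [h, h']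
    · by_cases h' : e ∈ A <;> simp [h, h']
  have hx : 5 * wt w (A ∩ B) ≤ 2 * ∑ e, w e := by linarith
  -- the six flows
  obtain ⟨α, hα, hα'⟩ := hA
  obtain ⟨β, hβ, hβ'⟩ := hB
  obtain ⟨P, hP, hP1⟩ := halve src dst β hβ
  let F : Fin 6 → E → ℤ := ![fun e => 3 * α e + β e, fun e => 3 * α e + (3 * P e - 2 * β e),
    fun e => 3 * α e + (β e - 3 * P e), fun e => (-3) * α e + β e,
    fun e => (-3) * α e + (3 * P e - 2 * β e), fun e => (-3) * α e + (β e - 3 * P e)]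
  have hF : ∀ i, Bal src dst (F i) := by
    intro i
    fin_cases i
    · exact (hα.smul 3).add hβ
    · exact (hα.smul 3).add ((hP.smul 3).sub (hβ.smul 2))
    · exact (hα.smul 3).add (hβ.sub (hP.smul 3))
    · exact (hα.smul (-3)).add hβ
    · exact (hα.smul (-3)).add ((hP.smul 3).sub (hβ.smul 2))
    · exact (hα.smul (-3)).add (hβ.sub (hP.smul 3))
  have hcase : ∀ e, (α e = 0 ∧ (β e = 1 ∨ β e = -1 ∨ β e = 2 ∨ β e = -2)) ∨
      ((α e = 1 ∨ α e = -1) ∧ β e = 0) ∨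
      (e ∈ A ∩ B ∧ (α e = 1 ∨ α e = -1) ∧ (β e = 1 ∨ β e = -1 ∨ β e = 2 ∨ β e = -2)) := by
    intro e
    rcases hα' e with ⟨h1, h2⟩ | ⟨h1, h2⟩ <;> rcases hβ' e with ⟨h3, h4⟩ | ⟨h3, h4⟩
    · exact Or.inr (Or.inr ⟨mem_inter.2 ⟨h1, h3⟩, h2, h4⟩)
    · exact Or.inr (Or.inl ⟨h2, h4⟩)
    · exact Or.inl ⟨h2, h4⟩
    · exact absurd (hAB e) (by tauto)
  have hPv : ∀ e, (β e = 1 ∨ β e = -1 ∨ β e = 2 ∨ β e = -2) →
      (β e = 1 ∧ P e = 0) ∨ (β e = 1 ∧ P e = 1) ∨ (β e = -1 ∧ P e = 0) ∨ (β e = -1 ∧ P e = -1) ∨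
        (β e = 2 ∧ P e = 1) ∨ (β e = -2 ∧ P e = -1) := by
    intro e h
    have h3 := abs_le.1 (hP1 e)
    omega
  have hP0 : ∀ e, β e = 0 → P e = 0 := by
    intro e h
    have h3 := abs_le.1 (hP1 e)
    omega
  have hbd : ∀ i e, 1 ≤ |F i e| ∧ |F i e| ≤ 5 := by
    intro i e
    have key : F i e ≠ 0 ∧ -5 ≤ F i e ∧ F i e ≤ 5 := by
      rcases hcase e with ⟨ha, hb⟩ | ⟨ha, hb⟩ | ⟨-, ha, hb⟩
      · rcases hPv e hb with ⟨c, d⟩ | ⟨c, d⟩ | ⟨c, d⟩ | ⟨c, d⟩ | ⟨c, d⟩ | ⟨c, d⟩ <;>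
          fin_cases i <;> simp [F, ha, c, d]
      · have d := hP0 e hb
        rcases ha with ha | ha <;> fin_cases i <;> simp [F, ha, hb, d]
      · rcases hPv e hb with ⟨c, d⟩ | ⟨c, d⟩ | ⟨c, d⟩ | ⟨c, d⟩ | ⟨c, d⟩ | ⟨c, d⟩ <;>
          rcases ha with ha | ha <;> fin_cases i <;> simp [F, ha, c, d]
    exact ⟨Int.one_le_abs key.1, abs_le.2 key.2⟩
  have hsum : ∀ e, ∑ i, (if |F i e| = 5 then w e else 0) ≤ if e ∈ A ∩ B then w e else 0 := by
    intro e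
    have hnn : 0 ≤ (if e ∈ A ∩ B then w e else 0) := by
      split_ifs
      · exact hw e
      · exact le_rfl
    rw [Fin.sum_univ_six]
    rcases hcase e with ⟨ha, hb⟩ | ⟨ha, hb⟩ | ⟨hm, ha, hb⟩
    · refine le_trans (le_of_eq ?_) hnn
      rcases hPv e hb with ⟨c, d⟩ | ⟨c, d⟩ | ⟨c, d⟩ | ⟨c, d⟩ | ⟨c, d⟩ | ⟨c, d⟩ <;>
        simp [F, ha, c, d]
    · refine le_trans (le_of_eq ?_) hnn
      have d := hP0 e hb
      rcases ha with ha | ha <;> simp [F, ha, hb, d]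
    · rw [if_pos hm]
      apply le_of_eq
      rcases hPv e hb with ⟨c, d⟩ | ⟨c, d⟩ | ⟨c, d⟩ | ⟨c, d⟩ | ⟨c, d⟩ | ⟨c, d⟩ <;>
        rcases ha with ha | ha <;> simp [F, ha, c, d]
  obtain ⟨i, hi⟩ := avg (by norm_num : 0 < 6) fun i => ∑ e ∈ univ.filter (fun e => |F i e| = 5), w e
  refine ⟨F i, hF i, hbd i, ?_⟩
  have h1 : ∑ i, ∑ e ∈ univ.filter (fun e => |F i e| = 5), w e ≤ wt w (A ∩ B) := by
    simp only [sum_filter]
    rw [sum_comm]
    exact sum_le_sum fun e _ => hsum e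
  push_cast at hi
  linarith

end Pool.Agent.N470.FZ
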